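import Pool.Agent.helper12.FI.SpecQ
import Pool.Agent.helper12.FI.QCC
import Pool.Agent.helper12.FI.QI0
import Pool.Agent.helper12.FI.NZA
import Pool.Agent.helper1.FI.SpecQ2
import Pool.Agent.helper70.FI.SpecQ1

/-!
# Project fi (MP_baa4d7_al): lemmas for QLA
-/

set_option autoImplicit false

namespace Pool.Agent.FI

open Pool.Agent.helper58.DC Pool.Agent.DI Pool.Agent.GR Pool.Agent.OB Pool.Agent.DR

theorem QLA_lgc (hLCG : LCG_stmt) {D : Type} [Group D] [Finite D] (com : ∀ a b : D, a * b = b * a) {X : Type}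
    [Fintype X] (m : X → ℤ) (l : X → (D →* ℂˣ)) : LGC (fun u : D => ∑ x, (m x : ℂ) * lv (l x) u) := by
  let _ : CommGroup D := { (inferInstance : Group D) with mul_comm := com }
  obtain ⟨h1, h2, -, -, -, h6, -, -, h9⟩ := hLCG D
  exact h9 X _ fun x => h6 _ _ (h1 (m x)) (h2 (l x))

variable {G : Type} [Group G] [Finite G]

theorem QLA_D_com {p : ℕ} {M : Ideal (integralClosure ℤ ℂ)} {D : Subgroup G} {x : G} {θ χ : G → ℂ}
    (h : Rt p M D x θ χ) (a b : D) : a * b = b * a := Subtype.ext (h.com a a.2 b b.2)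

/-- the form of `ev ψ i` on `D` -/
theorem QLA_form (hQEU : QEU_stmt) (hQCG : QCG_stmt) {p : ℕ} {M : Ideal (integralClosure ℤ ℂ)} (hS : Setup p M)
    {D : Subgroup G} {x : G} {θ χ : G → ℂ} (h : Rt p M D x θ χ) {P : Subgroup G} (hP : P ≤ D) {i : G → ℂ}
    (hi : QI M D (cz P) θ i) {ψ : G → ℂ} (hψ : ψ ∈ IrrOn (cz P)) :
    ∃ (m : Bl M (cz D) θ → ℤ) (l : Bl M (cz D) θ → (D →* ℂˣ)), ∀ u : D,
      ev ψ i u = θ 1 * ∑ᶠ x, (m x : ℂ) * lv (l x) u := by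
  classical
  have hCL : cz D ≤ cz P := Q1_C_le hP
  have hDC : D ≤ cz D := le_cz_of_com h.com
  have hinv : Inv (cz D) i := fun s hs y => hi.inv s ⟨cz_le_TT hs, hCL hs⟩ y
  obtain ⟨m, hm⟩ := hQEU G (cz P) (cz D) hCL i hi.idm.sup hi.idm.idem hinv (Bl M (cz D) θ) (fun _ hb => hb.1)
    hi.right ψ hψ
  have hgood := (hQCG p M hS G D x θ χ h).2.2
  have hθ : θ ∈ Bl M (cz D) θ := ⟨h.th, SB.refl _ _⟩
  have h1 : ∀ b : Bl M (cz D) θ, (b : G → ℂ) 1 = θ 1 := fun b =>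
    hgood.reg b b.2 θ hθ 1 (cz D).one_mem (by
      unfold PReg
      rw [orderOf_one, Nat.dvd_one]
      exact hS.pr.one_lt.ne')
  have h2 : ∀ b : Bl M (cz D) θ, ∃ l : D →* ℂˣ, ∀ (s : D) (g : G), (b : G → ℂ) (s * g) = lv l s * (b : G → ℂ) g :=
    fun b => QCC hDC (fun s hs g hg => ((Subgroup.mem_centralizer_iff.1 hg) s hs).symm) b.2.1
  choose l hl using h2
  refine ⟨fun b => (m b : ℤ), l, fun u => ?_⟩
  rw [hm u (hDC u.2)]
  have := ((IrrOn_fin (cz D)).subset fun _ (hb : _ ∈ Bl M (cz D) θ) => hb.1).fintype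
  rw [← finsum_subtype_eq_finsum_cond, mul_finsum]
  refine finsum_congr fun b => ?_
  have h3 := hl b u 1
  rw [mul_one, h1] at h3
  rw [h3]
  push_cast
  ring

theorem QLA_th {p : ℕ} {M : Ideal (integralClosure ℤ ℂ)} {D : Subgroup G} {x : G} {θ χ : G → ℂ}
    (h : Rt p M D x θ χ) : ∃ n : ℕ, n ≠ 0 ∧ θ 1 = n := by
  obtain ⟨n, hn, h1, -⟩ := ((B2 B1 G (cz D)).2 θ h.th).1
  exact ⟨n, hn.ne', h1⟩

/-- `β` is an integer combination of characters -/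
theorem QLA_h1 (hLCG : LCG_stmt) (hQEU : QEU_stmt) (hQCG : QCG_stmt) {p : ℕ} {M : Ideal (integralClosure ℤ ℂ)}
    (hS : Setup p M) {D : Subgroup G} {x : G} {θ χ : G → ℂ} (h : Rt p M D x θ χ) {P : Subgroup G} (hP : P ≤ D)
    {i : G → ℂ} (hi : QI M D (cz P) θ i) {ψ : G → ℂ} (hψ : ψ ∈ IrrOn (cz P)) :
    LGC (fun u : D => ev ψ i u / θ 1) := by
  classical
  obtain ⟨m, l, hml⟩ := QLA_form hQEU hQCG hS h hP hi hψ
  have hne := IrrOn_ne h.th
  have := ((IrrOn_fin (cz D)).subset fun _ (hb : _ ∈ Bl M (cz D) θ) => hb.1).fintype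
  have h1 := QLA_lgc hLCG (QLA_D_com h) m l
  have h2 : (fun u : D => ev ψ i u / θ 1) = fun u : D => ∑ x, (m x : ℂ) * lv (l x) u := by
    funext u
    rw [hml u, mul_div_cancel_left₀ _ hne, finsum_eq_sum_of_fintype]
  rw [h2]
  exact h1

theorem QLA_conj (hQEU : QEU_stmt) (hQCG : QCG_stmt) {p : ℕ} {M : Ideal (integralClosure ℤ ℂ)} (hS : Setup p M)
    {D : Subgroup G} {x : G} {θ χ : G → ℂ} (h : Rt p M D x θ χ) {P : Subgroup G} (hP : P ≤ D) {i : G → ℂ}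
    (hi : QI M D (cz P) θ i) {ψ : G → ℂ} (hψ : ψ ∈ IrrOn (cz P)) {u : G} (hu : u ∈ D) :
    ev ψ i u⁻¹ = (starRingEnd ℂ) (ev ψ i u) := by
  classical
  obtain ⟨m, l, hml⟩ := QLA_form hQEU hQCG hS h hP hi hψ
  obtain ⟨n, -, hn⟩ := QLA_th h
  have := ((IrrOn_fin (cz D)).subset fun _ (hb : _ ∈ Bl M (cz D) θ) => hb.1).fintype
  have h1 := hml ⟨u, hu⟩
  have h2 := hml ⟨u, hu⟩⁻¹
  rw [finsum_eq_sum_of_fintype] at h1 h2
  have h3 : (((⟨u, hu⟩ : D)⁻¹ : D) : G) = u⁻¹ := rfl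
  rw [h3] at h2
  change ev ψ i u = _ at h1
  rw [h1, h2, map_mul, map_sum, hn, Complex.conj_natCast]
  congr 1
  refine Finset.sum_congr rfl fun b _ => ?_
  rw [map_mul, star_lv, map_intCast]

/-- central elements -/
theorem QLA_cen {H S : Subgroup G} (hSH : S ≤ H) (hc : ∀ s ∈ S, ∀ h ∈ H, h * s = s * h) {ψ : G → ℂ}
    (hψ : ψ ∈ IrrOn H) (i : G → ℂ) : ∃ l : S →* ℂˣ, ∀ (s : S) (g : G), ev ψ i (s * g) = lv l s * ev ψ i g := by
  obtain ⟨l, hl⟩ := QCC hSH hc hψ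
  refine ⟨l, fun s g => ?_⟩
  unfold ev
  rw [mul_finsum]
  refine finsum_congr fun x => ?_
  rw [mul_assoc, hl]
  ring

/-- characters outside of the block -/
theorem QLA_out (hEVM : EVM_stmt) (hIDM : IDM_stmt) {M : Ideal (integralClosure ℤ ℂ)} {D L : Subgroup G} {θ i : G → ℂ}
    (hi : QI M D L θ i) {ψ : G → ℂ} (hψ : ψ ∈ IrrOn L) (hn : ψ ∉ Bl M L θ) {g : G} (hg : g ∈ L) : ev ψ i g = 0 := by
  classical
  obtain ⟨h1, h2, -⟩ := hIDM G L (Bl M L θ) fun _ hb => hb.1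
  have h3 := ((hEVM G L ψ hψ (eS L (Bl M L θ)) h1 g hg).1 i hi.idm.sup).2
  rw [h2 ψ hψ, if_neg hn, zero_mul] at h3
  have h4 : cv i (eS L (Bl M L θ)) = i := hi.blk
  rwa [h4] at h3

/-- orthogonality of a central and a non-central column -/
theorem QLA_orth (hEVM : EVM_stmt) (hIDM : IDM_stmt) (hRR2 : RR2_stmt) (hQEU : QEU_stmt) (hQCG : QCG_stmt) {p : ℕ}
    {M : Ideal (integralClosure ℤ ℂ)} (hS : Setup p M) {D : Subgroup G} {x : G} {θ χ : G → ℂ} (h : Rt p M D x θ χ)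
    {P : Subgroup G} (hP : P ≤ D) {i : G → ℂ} (hi : QI M D (cz P) θ i) {a u : G} (ha : a ∈ D) (hu : u ∈ D)
    (hac : Cen (cz P) a) (huc : ¬ Cen (cz P) u) :
    ∑ᶠ φ : Bl M (cz P) θ, ev φ i a * (starRingEnd ℂ) (ev φ i u) = 0 := by
  classical
  have hDL : D ≤ cz P := Q1_D_le h hP
  have hDT : D ≤ TT M D θ ⊓ cz P := le_inf ((le_cz_of_com h.com).trans cz_le_TT) hDL
  have hpe : ∀ y ∈ D, PEl p y := fun y hy => by
    obtain ⟨k, hk⟩ := h.dfa.pgrp ⟨y, hy⟩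
    refine ⟨k, ?_⟩
    have h1 := congrArg (fun z : D => (z : G)) hk
    simpa using h1
  have h1r : PReg p (1 : G) := by
    unfold PReg
    rw [orderOf_one, Nat.dvd_one]
    exact hS.pr.one_lt.ne'
  have h1 := hRR2 p M hS G (cz P) a (hDL ha) 1 (cz P).one_mem u (hDL hu) 1 (cz P).one_mem (hpe a ha) (hpe u hu)
    h1r h1r (Commute.one_right a) (Commute.one_right u) i i hi.idm hi.idm
    (fun y => by rw [mul_one]; exact hi.inv a (hDT ha) y) (fun y => by rw [mul_one]; exact hi.inv u (hDT hu) y)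
    (fun z hz w hw hzu _ => by
      exfalso
      apply huc
      have h2 : z⁻¹ * a * z = a := by
        rw [mul_assoc, ← hac z hz]
        group
      rw [← hzu, h2]
      exact hac)
  rw [mul_one, mul_one] at h1
  have h2 : ∑ᶠ φ : Bl M (cz P) θ, ev φ i a * (starRingEnd ℂ) (ev φ i u) =
      ∑ᶠ φ ∈ Bl M (cz P) θ, ev φ i a * ev φ i u⁻¹ := by
    rw [← finsum_subtype_eq_finsum_cond]
    refine finsum_congr fun φ => ?_
    rw [QLA_conj hQEU hQCG hS h hP hi φ.2.1 hu]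
  rw [h2, ← h1, finsum_mem_def, finsum_mem_def]
  refine finsum_congr fun φ => ?_
  by_cases hφ : φ ∈ Bl M (cz P) θ
  · rw [Set.indicator_of_mem hφ, Set.indicator_of_mem hφ.1]
  · rw [Set.indicator_of_notMem hφ]
    by_cases hφ' : φ ∈ IrrOn (cz P)
    · rw [Set.indicator_of_mem hφ', QLA_out hEVM hIDM hi hφ' hφ (hDL ha), zero_mul]
    · rw [Set.indicator_of_notMem hφ']

end Pool.Agent.FI
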